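import Pool.Agent.Q298.RandomSets

/-!
# Random sets with a small common expectation and large averages

In the Hilbert space `ℓ²` of finite integer sequences we build, for every `δ > 0`, independent
random convex subsets of the unit ball with a common expectation of norm at most `δ`, all of whose
Minkowski averages have norm one.
-/

namespace Pool.Agent.Results.MP_b91784_pr.HiddenTargets

open MeasureTheory ProbabilityTheory Q298.RandomSets Filter
open scoped Pointwise BoundedContinuousFunction InnerProductSpace ENNReal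

/-! ### Sets with a given sublinear support function -/

section Sublinear

variable {H : Type} [NormedAddCommGroup H] [InnerProductSpace ℝ H]

/-- Nonnegative sublinear functions dominated by the norm. -/
structure Sublin (p : H → ℝ) : Prop where
  nonneg : ∀ x, 0 ≤ p x
  add_le : ∀ x y, p (x + y) ≤ p x + p y
  smul : ∀ t : ℝ, 0 < t → ∀ x, p (t • x) = t * p x
  le_norm : ∀ x, p x ≤ ‖x‖

/-- The set with support function `p`. -/
def supSet (p : H → ℝ) : Set H := {y | ∀ x, ⟪y, x⟫_ℝ ≤ p x}

lemma norm_le_of_mem {p : H → ℝ} {δ : ℝ} (hδ : 0 ≤ δ) (hp : ∀ x, p x ≤ δ * ‖x‖) {y : H}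
    (hy : y ∈ supSet p) : ‖y‖ ≤ δ := by
  by_cases h0 : y = 0
  · rw [h0, norm_zero]; exact hδ
  · have hpos : 0 < ‖y‖ := norm_pos_iff.mpr h0
    have h1 := (hy y).trans (hp y)
    rw [real_inner_self_eq_norm_sq, sq] at h1
    exact le_of_mul_le_mul_right h1 hpos

/-- `supSet p` as a nonempty bounded convex set. -/
def supBC (p : H → ℝ) (hp : Sublin p) : BC H where
  carrier := supSet p
  nonempty := ⟨0, fun x => by rw [inner_zero_left]; exact hp.nonneg x⟩
  bounded := (Metric.isBounded_closedBall (x := (0 : H)) (r := 1)).subset fun a ha => by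
    rw [mem_closedBall_zero_iff]
    exact norm_le_of_mem zero_le_one (fun x => by rw [one_mul]; exact hp.le_norm x) ha
  convex := by
    intro a ha b hb s t hs ht hst x
    rw [inner_add_left, inner_smul_left, inner_smul_left]
    simp only [RCLike.conj_to_real]
    calc s * ⟪a, x⟫_ℝ + t * ⟪b, x⟫_ℝ ≤ s * p x + t * p x :=
          add_le_add (mul_le_mul_of_nonneg_left (ha x) hs) (mul_le_mul_of_nonneg_left (hb x) ht)
      _ = p x := by rw [← add_mul, hst, one_mul]

variable [CompleteSpace H]

/-- Every direction is supported (Hahn-Banach and Riesz). -/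
lemma exists_support (p : H → ℝ) (hp : Sublin p) (x : H) (hx : x ≠ 0) :
    ∃ y ∈ supSet p, ⟪y, x⟫_ℝ = p x := by
  have hp0 : p 0 ≤ 0 := by simpa using hp.le_norm 0
  obtain ⟨g, hg1, hg2⟩ := exists_extension_of_le_sublinear
    (LinearPMap.mkSpanSingleton x (p x) hx) p hp.smul hp.add_le (by
      rintro ⟨z, hz⟩
      obtain ⟨t, rfl⟩ := Submodule.mem_span_singleton.mp hz
      have hval : (LinearPMap.mkSpanSingleton x (p x) hx) ⟨t • x, hz⟩ = t * p x :=
        LinearPMap.mkSpanSingleton'_apply x (p x) _ t _
      rw [hval]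
      change t * p x ≤ p (t • x)
      rcases lt_trichotomy t 0 with ht | ht | ht
      · have h1 := hp.smul (-t) (by linarith) (-x)
        rw [smul_neg, neg_smul, neg_neg] at h1
        have h2 := hp.add_le x (-x)
        rw [add_neg_cancel] at h2
        have h3 := hp.nonneg 0
        rw [h1]
        nlinarith
      · subst ht
        simpa using hp.nonneg 0
      · rw [hp.smul t ht])
  have hbound : ∀ z, ‖g z‖ ≤ 1 * ‖z‖ := by
    intro z
    rw [one_mul, Real.norm_eq_abs, abs_le]
    have h1 := (hg2 z).trans (hp.le_norm z)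
    have h2 := (hg2 (-z)).trans (hp.le_norm (-z))
    rw [map_neg, norm_neg] at h2
    constructor <;> linarith
  refine ⟨(InnerProductSpace.toDual ℝ H).symm (g.mkContinuous 1 hbound), fun z => ?_, ?_⟩
  · rw [InnerProductSpace.toDual_symm_apply]
    exact hg2 z
  · rw [InnerProductSpace.toDual_symm_apply]
    have := hg1 ⟨x, Submodule.mem_span_singleton_self x⟩
    change g x = p x
    rw [this]
    exact LinearPMap.mkSpanSingleton_apply ℝ ℝ hx (p x)

/-- The vector representing a functional of norm one. -/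
noncomputable def vec (f : DualSphere H) : H := (InnerProductSpace.toDual ℝ H).symm f

lemma norm_vec (f : DualSphere H) : ‖vec f‖ = 1 := by
  unfold vec
  rw [LinearIsometryEquiv.norm_map]
  simp

lemma apply_eq (f : DualSphere H) (a : H) : (f : StrongDual ℝ H) a = ⟪a, vec f⟫_ℝ := by
  unfold vec
  rw [real_inner_comm, InnerProductSpace.toDual_symm_apply]

lemma R_supBC (p : H → ℝ) (hp : Sublin p) (f : DualSphere H) : R (supBC p hp) f = p (vec f) := by
  rw [R_eval]
  obtain ⟨y, hy, hyx⟩ := exists_support p hp (vec f) (by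
    intro h; have := norm_vec f; rw [h, norm_zero] at this; exact zero_ne_one this)
  refine IsGreatest.csSup_eq ⟨⟨y, hy, ?_⟩, ?_⟩
  · rw [apply_eq, hyx]
  · rintro _ ⟨a, ha, rfl⟩
    rw [apply_eq]
    exact ha _

end Sublinear

/-! ### The uniform product space -/

section Space

variable (K : ℕ) [NeZero K]

/-- The number of values of the `i`-th coordinate. -/
def nn (i : ℕ) : ℕ := K * 2 ^ (i + 1)

instance (i : ℕ) : NeZero (nn K i) := ⟨by unfold nn; exact mul_ne_zero (NeZero.ne K) (by positivity)⟩

/-- The sample space. -/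
abbrev Om : Type := (i : ℕ) → Fin (nn K i)

/-- The uniform measure on the values of the `i`-th coordinate. -/
noncomputable def unif (i : ℕ) : Measure (Fin (nn K i)) :=
  (PMF.uniformOfFintype (Fin (nn K i))).toMeasure

instance (i : ℕ) : IsProbabilityMeasure (unif K i) := PMF.toMeasure.isProbabilityMeasure _

/-- The product measure: the coordinates are independent and uniform. -/
noncomputable def PP : Measure (Om K) := Measure.infinitePi (unif K)

instance : IsProbabilityMeasure (PP K) := by unfold PP; infer_instance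

/-- The event that the `i`-th coordinate is `c`. -/
def cell (i : ℕ) (c : Fin (nn K i)) : Set (Om K) := {θ | θ i = c}

omit [NeZero K] in
lemma measurable_coord (i : ℕ) : Measurable (fun θ : Om K => θ i) := measurable_pi_apply i

lemma measurableSet_cell (i : ℕ) (c : Fin (nn K i)) : MeasurableSet (cell K i c) :=
  measurable_coord K i (measurableSet_singleton c)

lemma measure_cell (i : ℕ) (c : Fin (nn K i)) : PP K (cell K i c) = (nn K i : ℝ≥0∞)⁻¹ := by
  have hmp := measurePreserving_eval_infinitePi (unif K) i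
  have h1 := hmp.measure_preimage (s := {c}) (measurableSet_singleton c).nullMeasurableSet
  have h2 : (Function.eval i : Om K → Fin (nn K i)) ⁻¹' {c} = cell K i c := rfl
  rw [h2] at h1
  unfold PP
  rw [h1, unif, PMF.toMeasure_apply_singleton _ _ (measurableSet_singleton c),
    PMF.uniformOfFintype_apply, Fintype.card_fin]

/-- The index set: finite integer sequences, called targets. A target is hit if it guesses one of the
coordinates correctly. -/
def hit (a : List ℕ) : Set (Om K) := {θ | ∃ i, a[i]? = some ((θ i : Fin (nn K i)) : ℕ)}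

lemma measurableSet_hit (a : List ℕ) : MeasurableSet (hit K a) := by
  have : hit K a = ⋃ i, {θ : Om K | a[i]? = some ((θ i : Fin (nn K i)) : ℕ)} := by
    ext θ; simp [hit]
  rw [this]
  refine MeasurableSet.iUnion fun i => ?_
  exact (measurable_coord K i)
    (Set.toFinite {c : Fin (nn K i) | a[i]? = some (c : ℕ)}).measurableSet

lemma measure_hit_le (a : List ℕ) : PP K (hit K a) ≤ (K : ℝ≥0∞)⁻¹ := by
  have h1 : hit K a ⊆ ⋃ i, {θ : Om K | a[i]? = some ((θ i : Fin (nn K i)) : ℕ)} := by
    intro θ hθ; simpa [hit] using hθ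
  have h2 : ∀ i, PP K {θ : Om K | a[i]? = some ((θ i : Fin (nn K i)) : ℕ)} ≤
      (nn K i : ℝ≥0∞)⁻¹ := by
    intro i
    by_cases h : ∃ c : Fin (nn K i), a[i]? = some (c : ℕ)
    · obtain ⟨c, hc⟩ := h
      rw [← measure_cell K i c]
      refine measure_mono fun θ hθ => ?_
      change a[i]? = some ((θ i : Fin (nn K i)) : ℕ) at hθ
      rw [hc] at hθ
      exact (Fin.ext (Option.some_injective _ hθ)).symm
    · have : {θ : Om K | a[i]? = some ((θ i : Fin (nn K i)) : ℕ)} = ∅ := by
        ext θ
        simp only [Set.mem_ofPred_eq, Set.mem_empty_iff_false, iff_false]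
        exact fun h' => h ⟨θ i, h'⟩
      rw [this, measure_empty]
      exact zero_le
  calc PP K (hit K a) ≤ PP K (⋃ i, {θ : Om K | a[i]? = some ((θ i : Fin (nn K i)) : ℕ)}) :=
        measure_mono h1
    _ ≤ ∑' i, PP K {θ : Om K | a[i]? = some ((θ i : Fin (nn K i)) : ℕ)} := measure_iUnion_le _
    _ ≤ ∑' i, (nn K i : ℝ≥0∞)⁻¹ := ENNReal.tsum_le_tsum h2
    _ = ∑' i : ℕ, (K : ℝ≥0∞)⁻¹ * (2⁻¹ : ℝ≥0∞) ^ (i + 1) := by
        refine tsum_congr fun i => ?_
        unfold nn
        push_cast
        rw [ENNReal.mul_inv (Or.inr (by simp)) (Or.inr (by simp)), ENNReal.inv_pow]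
    _ = (K : ℝ≥0∞)⁻¹ := by
        rw [ENNReal.tsum_mul_left, ENNReal.tsum_geometric_add_one, ENNReal.one_sub_inv_two,
          inv_inv, ENNReal.inv_mul_cancel (by norm_num) (by norm_num), mul_one]

end Space

/-! ### The support functions -/

/-- Square summable families indexed by the targets. -/
abbrev E2 : Type := lp (fun _ : List ℕ => ℝ) 2

lemma abs_coord_le (x : E2) (a : List ℕ) : |x a| ≤ ‖x‖ := by
  have := lp.norm_apply_le_norm (p := 2) (by norm_num) x a
  simpa using this

section Functions

variable (K : ℕ) [NeZero K]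

/-- The largest coordinate of `x` among the targets hit by `θ`. -/
noncomputable def hfun (θ : Om K) (x : E2) : ℝ := ⨆ a : List ℕ, (hit K a).indicator (fun _ => |x a|) θ

omit [NeZero K] in
lemma term_le (θ : Om K) (x : E2) (a : List ℕ) : (hit K a).indicator (fun _ => |x a|) θ ≤ ‖x‖ := by
  by_cases h : θ ∈ hit K a
  · rw [Set.indicator_of_mem h]; exact abs_coord_le x a
  · rw [Set.indicator_of_notMem h]; exact norm_nonneg x

omit [NeZero K] in
lemma term_nonneg (θ : Om K) (x : E2) (a : List ℕ) : 0 ≤ (hit K a).indicator (fun _ => |x a|) θ :=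
  Set.indicator_nonneg (fun _ _ => abs_nonneg _) θ

lemma bdd (θ : Om K) (x : E2) :
    BddAbove (Set.range fun a : List ℕ => (hit K a).indicator (fun _ => |x a|) θ) :=
  ⟨‖x‖, by rintro _ ⟨a, rfl⟩; exact term_le K θ x a⟩

lemma hfun_le_norm (θ : Om K) (x : E2) : hfun K θ x ≤ ‖x‖ := ciSup_le fun a => term_le K θ x a

lemma hfun_nonneg (θ : Om K) (x : E2) : 0 ≤ hfun K θ x :=
  Real.iSup_nonneg fun a => term_nonneg K θ x a

lemma hfun_add (θ : Om K) (x y : E2) : hfun K θ (x + y) ≤ hfun K θ x + hfun K θ y := by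
  refine ciSup_le fun a => ?_
  refine le_trans ?_ (add_le_add (le_ciSup (bdd K θ x) a) (le_ciSup (bdd K θ y) a))
  by_cases h : θ ∈ hit K a
  · rw [Set.indicator_of_mem h, Set.indicator_of_mem h, Set.indicator_of_mem h]
    exact abs_add_le _ _
  · rw [Set.indicator_of_notMem h, Set.indicator_of_notMem h, Set.indicator_of_notMem h, add_zero]

omit [NeZero K] in
lemma hfun_smul (θ : Om K) (t : ℝ) (ht : 0 < t) (x : E2) :
    hfun K θ (t • x) = t * hfun K θ x := by
  unfold hfun
  rw [Real.mul_iSup_of_nonneg ht.le]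
  refine iSup_congr fun a => ?_
  by_cases h : θ ∈ hit K a
  · rw [Set.indicator_of_mem h, Set.indicator_of_mem h]
    change |t * x a| = _
    rw [abs_mul, abs_of_pos ht]
  · rw [Set.indicator_of_notMem h, Set.indicator_of_notMem h, mul_zero]

lemma measurable_hfun (x : E2) : Measurable fun θ => hfun K θ x := by
  refine Measurable.isLUB (f := fun (a : List ℕ) θ => (hit K a).indicator (fun _ => |x a|) θ)
    (fun a => measurable_const.indicator (measurableSet_hit K a)) fun θ => ?_
  exact isLUB_ciSup (bdd K θ x)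

lemma integrable_hfun (x : E2) : Integrable (fun θ => hfun K θ x) (PP K) :=
  Integrable.of_bound (measurable_hfun K x).aestronglyMeasurable ‖x‖
    (Eventually.of_forall fun θ => by
      rw [Real.norm_eq_abs, abs_of_nonneg (hfun_nonneg K θ x)]; exact hfun_le_norm K θ x)

/-- The common support function. -/
noncomputable def gfun (x : E2) : ℝ := ∫ θ, hfun K θ x ∂(PP K)

/-- The support function given that the `i`-th coordinate is `c`. -/
noncomputable def pfun (i : ℕ) (c : Fin (nn K i)) (x : E2) : ℝ :=
  nn K i * ∫ θ in cell K i c, hfun K θ x ∂(PP K)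

lemma real_cell (i : ℕ) (c : Fin (nn K i)) : (PP K).real (cell K i c) = (nn K i : ℝ)⁻¹ := by
  rw [measureReal_def, measure_cell]
  simp

lemma nn_pos (i : ℕ) : (0 : ℝ) < nn K i := by
  have : NeZero (nn K i) := inferInstance
  exact_mod_cast Nat.pos_of_ne_zero this.out

lemma gfun_sublin : Sublin (gfun K) where
  nonneg x := integral_nonneg fun θ => hfun_nonneg K θ x
  add_le x y := by
    unfold gfun
    rw [← integral_add (integrable_hfun K x) (integrable_hfun K y)]
    exact integral_mono (integrable_hfun K _) ((integrable_hfun K x).add (integrable_hfun K y))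
      fun θ => hfun_add K θ x y
  smul t ht x := by
    unfold gfun
    rw [← integral_const_mul]
    exact integral_congr_ae (Eventually.of_forall fun θ => hfun_smul K θ t ht x)
  le_norm x := by
    unfold gfun
    calc ∫ θ, hfun K θ x ∂(PP K) ≤ ∫ _, ‖x‖ ∂(PP K) :=
          integral_mono (integrable_hfun K x) (integrable_const _) fun θ => hfun_le_norm K θ x
      _ = ‖x‖ := by simp

lemma pfun_sublin (i : ℕ) (c : Fin (nn K i)) : Sublin (pfun K i c) where
  nonneg x := mul_nonneg (nn_pos K i).le (integral_nonneg fun θ => hfun_nonneg K θ x)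
  add_le x y := by
    unfold pfun
    rw [← mul_add]
    refine mul_le_mul_of_nonneg_left ?_ (nn_pos K i).le
    rw [← integral_add (integrable_hfun K x).integrableOn (integrable_hfun K y).integrableOn]
    exact integral_mono (integrable_hfun K _).integrableOn
      ((integrable_hfun K x).integrableOn.add (integrable_hfun K y).integrableOn)
      fun θ => hfun_add K θ x y
  smul t ht x := by
    unfold pfun
    rw [integral_congr_ae (Eventually.of_forall fun θ => hfun_smul K θ t ht x),
      integral_const_mul]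
    ring
  le_norm x := by
    unfold pfun
    calc nn K i * ∫ θ in cell K i c, hfun K θ x ∂(PP K)
        ≤ nn K i * ∫ _ in cell K i c, ‖x‖ ∂(PP K) := by
          refine mul_le_mul_of_nonneg_left ?_ (nn_pos K i).le
          exact integral_mono (integrable_hfun K x).integrableOn (integrable_const _)
            fun θ => hfun_le_norm K θ x
      _ = ‖x‖ := by
          rw [setIntegral_const, real_cell, smul_eq_mul, ← mul_assoc,
            mul_inv_cancel₀ (nn_pos K i).ne', one_mul]

lemma sum_pfun (i : ℕ) (x : E2) : ∑ c, (nn K i : ℝ)⁻¹ * pfun K i c x = gfun K x := by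
  have h1 : ∀ c, (nn K i : ℝ)⁻¹ * pfun K i c x = ∫ θ in cell K i c, hfun K θ x ∂(PP K) := by
    intro c
    unfold pfun
    rw [← mul_assoc, inv_mul_cancel₀ (nn_pos K i).ne', one_mul]
  simp_rw [h1]
  have h2 : (⋃ c, cell K i c) = Set.univ := by
    ext θ; simp [cell]
  unfold gfun
  rw [← setIntegral_univ (f := fun θ => hfun K θ x), ← h2]
  rw [integral_iUnion_fintype (fun c => measurableSet_cell K i c)]
  · intro c c' hcc
    exact Set.disjoint_left.mpr fun θ h h' => hcc ((h : θ i = c).symm.trans h')
  · exact fun c => (integrable_hfun K x).integrableOn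

lemma norm_sq_eq (x : E2) : HasSum (fun a => x a ^ 2) (‖x‖ ^ 2) := by
  have h1 : Summable fun a => x a ^ 2 := by
    refine (summable_congr fun w => ?_).mp (lp.summable_inner (𝕜 := ℝ) x x)
    simp
  have h2 : ‖x‖ ^ 2 = ∑' a, x a ^ 2 := by
    rw [← real_inner_self_eq_norm_sq, lp.inner_eq_tsum]
    simp
  rw [h2]
  exact h1.hasSum

lemma hfun_sq_le (θ : Om K) (x : E2) : ENNReal.ofReal (hfun K θ x ^ 2) ≤
    ∑' a, (hit K a).indicator (fun _ => ENNReal.ofReal (x a ^ 2)) θ := by
  set T := ∑' a, (hit K a).indicator (fun _ => ENNReal.ofReal (x a ^ 2)) θ with hT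
  by_cases htop : T = ⊤
  · rw [htop]; exact le_top
  · have h1 : ∀ a, (hit K a).indicator (fun _ => |x a|) θ ≤ √T.toReal := by
      intro a
      by_cases h : θ ∈ hit K a
      · rw [Set.indicator_of_mem h]
        apply Real.le_sqrt_of_sq_le
        rw [sq_abs]
        have h2 : (hit K a).indicator (fun _ => ENNReal.ofReal (x a ^ 2)) θ ≤ T :=
          ENNReal.le_tsum a
        rw [Set.indicator_of_mem h] at h2
        exact (ENNReal.ofReal_le_iff_le_toReal htop).mp h2
      · rw [Set.indicator_of_notMem h]; exact Real.sqrt_nonneg _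
    have h2 : hfun K θ x ≤ √T.toReal := ciSup_le h1
    have h3 : hfun K θ x ^ 2 ≤ T.toReal := by
      calc hfun K θ x ^ 2 ≤ (√T.toReal) ^ 2 := pow_le_pow_left₀ (hfun_nonneg K θ x) h2 2
        _ = T.toReal := Real.sq_sqrt ENNReal.toReal_nonneg
    exact (ENNReal.ofReal_le_iff_le_toReal htop).mpr h3

lemma gfun_sq_le (x : E2) : gfun K x ^ 2 ≤ ‖x‖ ^ 2 / K := by
  have hK : (0 : ℝ) < K := by exact_mod_cast Nat.pos_of_ne_zero (NeZero.ne K)
  have hint := integrable_hfun K x
  have hint2 : Integrable (fun θ => hfun K θ x ^ 2) (PP K) :=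
    Integrable.of_bound ((measurable_hfun K x).pow_const 2).aestronglyMeasurable (‖x‖ ^ 2)
      (Eventually.of_forall fun θ => by
        rw [Real.norm_eq_abs, abs_of_nonneg (sq_nonneg _)]
        exact pow_le_pow_left₀ (hfun_nonneg K θ x) (hfun_le_norm K θ x) 2)
  -- the variance is nonnegative
  have h1 : gfun K x ^ 2 ≤ ∫ θ, hfun K θ x ^ 2 ∂(PP K) := by
    have h2 : 0 ≤ ∫ θ, (hfun K θ x - gfun K x) ^ 2 ∂(PP K) := integral_nonneg fun θ => sq_nonneg _
    have h3 : ∫ θ, (hfun K θ x - gfun K x) ^ 2 ∂(PP K) =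
        ∫ θ, hfun K θ x ^ 2 ∂(PP K) - gfun K x ^ 2 := by
      have h4 : (fun θ => (hfun K θ x - gfun K x) ^ 2) = fun θ =>
          (hfun K θ x ^ 2 - 2 * gfun K x * hfun K θ x) + gfun K x ^ 2 := by
        funext θ; ring
      have h5 : Integrable (fun θ => 2 * gfun K x * hfun K θ x) (PP K) := hint.const_mul _
      have h6 : Integrable (fun θ => hfun K θ x ^ 2 - 2 * gfun K x * hfun K θ x) (PP K) :=
        hint2.sub h5
      rw [h4, integral_add h6 (integrable_const _), integral_sub hint2 h5, integral_const_mul]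
      change _ - 2 * gfun K x * gfun K x + _ = _
      simp
      ring
    linarith
  -- second moment
  have h2 : ∫ θ, hfun K θ x ^ 2 ∂(PP K) ≤ ‖x‖ ^ 2 / K := by
    rw [integral_eq_lintegral_of_nonneg_ae (Eventually.of_forall fun θ => sq_nonneg _)
      hint2.aestronglyMeasurable]
    refine ENNReal.toReal_le_of_le_ofReal (by positivity) ?_
    calc ∫⁻ θ, ENNReal.ofReal (hfun K θ x ^ 2) ∂(PP K)
        ≤ ∫⁻ θ, ∑' a, (hit K a).indicator (fun _ => ENNReal.ofReal (x a ^ 2)) θ ∂(PP K) :=
          lintegral_mono fun θ => hfun_sq_le K θ x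
      _ = ∑' a, ∫⁻ θ, (hit K a).indicator (fun _ => ENNReal.ofReal (x a ^ 2)) θ ∂(PP K) :=
          lintegral_tsum fun a => (measurable_const.indicator (measurableSet_hit K a)).aemeasurable
      _ = ∑' a, ENNReal.ofReal (x a ^ 2) * PP K (hit K a) := by
          refine tsum_congr fun a => ?_
          rw [lintegral_indicator (measurableSet_hit K a), setLIntegral_const]
      _ ≤ ∑' a, ENNReal.ofReal (x a ^ 2) * (K : ℝ≥0∞)⁻¹ :=
          ENNReal.tsum_le_tsum fun a => mul_le_mul_right (measure_hit_le K a) _
      _ = ENNReal.ofReal (‖x‖ ^ 2 / K) := by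
          rw [ENNReal.tsum_mul_right, ← ENNReal.ofReal_tsum_of_nonneg (fun a => sq_nonneg _)
            (norm_sq_eq x).summable, (norm_sq_eq x).tsum_eq, ENNReal.ofReal_div_of_pos hK,
            ENNReal.ofReal_natCast, ENNReal.div_eq_inv_mul, mul_comm]
  exact h1.trans h2

/-- The coordinate vector of a target. -/
noncomputable def e (a : List ℕ) : E2 := lp.single 2 a 1

lemma norm_e (a : List ℕ) : ‖e a‖ = 1 := by
  unfold e
  rw [lp.norm_single (by norm_num)]
  simp

lemma hfun_e (θ : Om K) (a : List ℕ) (h : θ ∈ hit K a) : hfun K θ (e a) = 1 := by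
  apply le_antisymm
  · have := hfun_le_norm K θ (e a)
    rwa [norm_e] at this
  · have h1 := le_ciSup (bdd K θ (e a)) a
    rw [Set.indicator_of_mem h] at h1
    refine le_trans (le_of_eq ?_) h1
    simp [e]

lemma pfun_e (i : ℕ) (c : Fin (nn K i)) (a : List ℕ) (h : a[i]? = some (c : ℕ)) :
    pfun K i c (e a) = 1 := by
  have h1 : ∫ θ in cell K i c, hfun K θ (e a) ∂(PP K) = ∫ _ in cell K i c, (1 : ℝ) ∂(PP K) := by
    refine setIntegral_congr_fun (measurableSet_cell K i c) fun θ hθ => ?_
    refine hfun_e K θ a ⟨i, ?_⟩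
    rw [h, show θ i = c from hθ]
  unfold pfun
  rw [h1, setIntegral_const, real_cell, smul_eq_mul, mul_one, mul_inv_cancel₀ (nn_pos K i).ne']

end Functions

/-! ### The main theorem -/

lemma norm_le_of_mem_sum {X : Type} [NormedAddCommGroup X] [NormedSpace ℝ X] (A : ℕ → BC X)
    (hA : ∀ i, (A i).carrier ⊆ Metric.closedBall 0 1) (n : ℕ) :
    ∀ y ∈ ∑ i ∈ Finset.range n, (A i).carrier, ‖y‖ ≤ n := by
  induction n with
  | zero =>
    intro y hy
    rw [Finset.range_zero, Finset.sum_empty] at hy
    rw [Set.mem_zero.mp hy]; simp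
  | succ n ih =>
    intro y hy
    rw [Finset.sum_range_succ] at hy
    obtain ⟨u, hu, v, hv, rfl⟩ := Set.mem_add.mp hy
    have h1 := ih u hu
    have h2 := hA n hv
    rw [mem_closedBall_zero_iff] at h2
    push_cast
    exact (norm_add_le u v).trans (add_le_add h1 h2)

/-- There is a B-convex Banach space `X` and `ε > 0` such that for every `δ > 0` there are
independent random convex sets with values in the unit ball and a common expectation
`U ⊆ δ B_X`, for which `limsup ‖(1/n) ∑ Ψ_i(ω)‖ > ε` for every outcome `ω`. -/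
theorem result : ∃ (X : Type) (_ : NormedAddCommGroup X) (_ : NormedSpace ℝ X)
    (_ : CompleteSpace X), BConvex X ∧ ∃ ε : ℝ, 0 < ε ∧ ∀ δ : ℝ, 0 < δ →
    ∃ (Ω : Type) (_ : MeasurableSpace Ω) (P : Measure Ω) (_ : IsProbabilityMeasure P)
      (Ψ : ℕ → Ω → BC X) (U : BC X),
      (∀ n, StronglyMeasurable fun ω => R (Ψ n ω)) ∧
      (∀ n ω, (Ψ n ω).carrier ⊆ Metric.closedBall 0 1) ∧
      iIndepFun (fun n ω => R (Ψ n ω)) P ∧
      (∀ n, HasExpectation P (Ψ n) U) ∧
      U.carrier ⊆ Metric.closedBall 0 δ ∧
      ∀ ω, ε < limsup (fun n => setNorm (average (fun i => Ψ i ω) n)) atTop := by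
  refine ⟨E2, inferInstance, inferInstance, inferInstance, bConvex_of_inner E2, 1 / 2,
    by norm_num, fun δ hδ => ?_⟩
  set K : ℕ := ⌈1 / δ ^ 2⌉₊ + 1 with hKdef
  have : NeZero K := ⟨Nat.succ_ne_zero _⟩
  have hK : 1 / δ ^ 2 ≤ K := by
    rw [hKdef]
    push_cast
    have := Nat.le_ceil (1 / δ ^ 2)
    linarith
  have hK0 : (0 : ℝ) < K := by exact_mod_cast Nat.succ_pos _
  have hball : ∀ (i : ℕ) (c : Fin (nn K i)),
      (supBC (pfun K i c) (pfun_sublin K i c)).carrier ⊆ Metric.closedBall 0 1 := by
    intro i c y hy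
    rw [mem_closedBall_zero_iff]
    exact norm_le_of_mem zero_le_one
      (fun x => by rw [one_mul]; exact (pfun_sublin K i c).le_norm x) hy
  refine ⟨Om K, inferInstance, PP K, inferInstance,
    fun n ω => supBC (pfun K n (ω n)) (pfun_sublin K n (ω n)),
    supBC (gfun K) (gfun_sublin K), ?_, fun n ω => hball n (ω n), ?_, ?_, ?_, ?_⟩
  · intro n
    exact (StronglyMeasurable.of_discrete (f := fun c => R (supBC (pfun K n c)
      (pfun_sublin K n c)))).comp_measurable (measurable_coord K n)
  · exact iIndepFun_infinitePi (X := fun n c => R (supBC (pfun K n c) (pfun_sublin K n c)))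
      fun n => measurable_of_finite _
  · intro n
    have hmp := measurePreserving_eval_infinitePi (unif K) n
    have hint : Integrable (fun c => R (supBC (pfun K n c) (pfun_sublin K n c))) (unif K n) :=
      Integrable.of_finite
    refine ⟨hmp.integrable_comp_of_integrable hint, ?_⟩
    have h1 : ∫ ω, R (supBC (pfun K n (ω n)) (pfun_sublin K n (ω n))) ∂(PP K) =
        ∫ c, R (supBC (pfun K n c) (pfun_sublin K n c)) ∂(unif K n) := by
      have h2 := integral_map (f := fun c => R (supBC (pfun K n c) (pfun_sublin K n c)))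
        hmp.aemeasurable (by rw [hmp.map_eq]; exact hint.aestronglyMeasurable)
      rw [hmp.map_eq] at h2
      exact h2.symm
    rw [h1]
    unfold unif
    rw [PMF.integral_eq_sum]
    ext f
    rw [R_supBC]
    simp only [PMF.uniformOfFintype_apply, Fintype.card_fin, BoundedContinuousFunction.coe_sum,
      Finset.sum_apply, BoundedContinuousFunction.coe_smul, smul_eq_mul, R_supBC]
    rw [← sum_pfun K n]
    simp
  · intro y hy
    rw [mem_closedBall_zero_iff]
    refine norm_le_of_mem hδ.le (fun x => ?_) hy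
    have h1 := gfun_sq_le K x
    have h2 : ‖x‖ ^ 2 / K ≤ (δ * ‖x‖) ^ 2 := by
      rw [div_le_iff₀ hK0, mul_pow]
      have h3 : 1 ≤ δ ^ 2 * K := by
        rw [div_le_iff₀ (by positivity)] at hK
        linarith
      nlinarith [sq_nonneg ‖x‖]
    exact le_of_sq_le_sq (h1.trans h2) (by positivity)
  · intro ω
    have hone : ∀ n : ℕ, 1 ≤ n → setNorm (average (fun i => supBC (pfun K i (ω i))
        (pfun_sublin K i (ω i))) n) = 1 := by
      intro n hn
      have hn' : (0 : ℝ) < n := by exact_mod_cast hn
      set A : ℕ → BC E2 := fun i => supBC (pfun K i (ω i)) (pfun_sublin K i (ω i)) with hA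
      -- the target
      set a : List ℕ := List.ofFn fun i : Fin n => ((ω i : Fin (nn K i)) : ℕ) with ha
      have hget : ∀ i < n, a[i]? = some ((ω i : Fin (nn K i)) : ℕ) := by
        intro i hi
        rw [ha, List.getElem?_ofFn]
        simp [hi]
      have hy : ∀ i, ∃ y ∈ (A i).carrier, i < n → ⟪y, e a⟫_ℝ = 1 := by
        intro i
        by_cases hi : i < n
        · obtain ⟨y, hy, hye⟩ := exists_support (pfun K i (ω i)) (pfun_sublin K i (ω i)) (e a)
            (by intro h; have := norm_e a; rw [h, norm_zero] at this; exact zero_ne_one this)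
          rw [pfun_e K i (ω i) a (hget i hi)] at hye
          exact ⟨y, hy, fun _ => hye⟩
        · obtain ⟨y, hy⟩ := (A i).nonempty
          exact ⟨y, hy, fun h => absurd h hi⟩
      choose y hyA hye using hy
      have hmem := mem_average A n y hyA
      apply le_antisymm
      · refine csSup_le (Set.Nonempty.image _ ⟨_, hmem⟩) ?_
        rintro _ ⟨z, hz, rfl⟩
        obtain ⟨z', hz', rfl⟩ := Set.mem_smul_set.mp hz
        rw [norm_smul]
        have h1 := norm_le_of_mem_sum A (fun i => hball i (ω i)) n z' hz'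
        rw [Real.norm_eq_abs, abs_of_pos (by positivity), one_div, inv_mul_le_iff₀ hn', mul_one]
        exact h1
      · refine le_trans ?_ (norm_le_setNorm (bounded_average A n) hmem)
        have h1 := real_inner_le_norm ((1 / (n : ℝ)) • ∑ i ∈ Finset.range n, y i) (e a)
        rw [norm_e, mul_one] at h1
        refine le_trans (le_of_eq ?_) h1
        rw [inner_smul_left, sum_inner, Finset.sum_congr rfl fun i hi =>
          hye i (Finset.mem_range.mp hi)]
        simp
        field_simp
    have hlim : Tendsto (fun n => setNorm (average (fun i => supBC (pfun K i (ω i))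
        (pfun_sublin K i (ω i))) n)) atTop (nhds 1) := by
      refine tendsto_const_nhds.congr' ?_
      filter_upwards [eventually_ge_atTop 1] with n hn
      exact (hone n hn).symm
    rw [hlim.limsup_eq]
    norm_num

end Pool.Agent.Results.MP_b91784_pr.HiddenTargets
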